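import Pool.Agent.Helper43.NSLB.Lim
import Pool.Agent.Helper87.NSL.Asm
import Pool.Agent.Helper8.CPY.Okh
import Pool.Agent.Helper55.INV.Dg
import Pool.Agent.Helper37.OKD.Dg

/-! NSLB: limits of pairs with a Lipschitz bound at the small windows are stable if they are deficient at all levels.
From helper87's `nsls`. -/

set_option autoImplicit false

namespace Pool.Agent.Helper43.NSLB

open Finset Filter Topology Matrix Pool.Agent.Helper69.RK Pool.Agent.Helper31.EC Pool.Agent.Helper31.EC.Sp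
open Pool.Agent.Helper40.EL
open Pool.Agent.Helper84.MT Pool.Agent.Helper59.LF Pool.Agent.Helper89.LX
open Pool.Agent.Helper3.LF hiding lin
open Pool.Agent.Helper48.NS Pool.Agent.Helper49.MD Pool.Agent.Helper87.NSL Pool.Agent.Helper38.NSL
open Pool.Agent.Helper14.NHG
open Pool.Agent.Helper47.FN (KR lftR obR)
open Pool.Agent.Helper36.AM (MCl STu STO)
open Pool.Agent.Helper29.MX (Rsl AllE volKO KAd OkA Ocl Cv CvK Pt Dfc Stb)
open Pool.Agent.Helper80.SUB (Sub SubCl)
open Pool.Agent.Helper8.CPY (CpT okA_gd)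

noncomputable section

variable {S : Sp} {M N D g r v : ℕ} {E : ℕ → ℕ} {ι κ : Type} {A : MCl N}

/-- NSL WITH A LIPSCHITZ BOUND: limits of pairs with `v` unit directions, the total exponent of which is at most
`La * c + ε j` at the windows `c < l` on all events, are stable if they are deficient at all levels -/
def NSLB (N : ℕ) : Prop := ∀ (A C : MCl N), OkA N A → Ocl N A C → (∀ m, m < N → STu m) → ∀ v : ℕ,
  STO N (Cv A (v + 1)) → ∀ (g r : ℕ) (l La : ℝ), 0 < l → ∀ (ε : ℕ → ℝ), (∀ j, 0 ≤ ε j) → Tendsto ε atTop (𝓝 0) →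
    DiagTo (fun j => lftR fun S (s : MSys S N (lin g) (Fin r)) R => CvK C v S g r s R ∧
        AllE (fun _ t R' => ∀ c : ℝ, 0 ≤ c → c < l → (N : ℝ) - volKO t R' c ≤ La * c + ε j) S s R)
      (lftR fun S (s : MSys S N (lin g) (Fin r)) R => CvK C v S g r s R ∧
        ((∀ b : ℝ, 0 < b → b ≤ 1 → Dfc b s) → Stb 0 s R))

theorem sub_monoE {g g' : ℕ} (hg : ∀ D, lin g D ≤ lin g' D) (s : MSys S N (lin g) (Fin r)) :
    Sub s (Pj.id S) (⟨s.Q, fun i => (s.lf i).monoE hg⟩ : MSys S N (lin g') (Fin r)) where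
  pt := rfl
  tp := fun i => ⟨i, fun _ => ⊥, NI_of_PLe (PLe_of_le fun k => bot_le), fun b _ _ => by
    have e : ((s.lf i).win b).pull (Pj.id S) = ((s.lf i).monoE hg).win b := (win_pull (Pj.id S) (s.lf i) b).symm
    rw [e]
    exact PLe_left _ _⟩

/-- one pair: transversal at the windows `c > 0`, deficient at all levels -/
theorem stb_of_nhc (hA : OkA N A) (hst : ∀ m, m < N → STu m) (hs : STO N (Cv A (v + 1)))
    {s : MSys S N (lin g) (Fin r)} {R : Rsl S} (hcl : Cv A v S g r s) (hR : Pt s R)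
    (hdfc : ∀ b : ℝ, 0 < b → b ≤ 1 → Dfc b s) {K' : ℝ} (hnh : ∀ D : ℕ, NHC s D R (fun i => i) (C3 N D) K') :
    Stb 0 s R := by
  obtain ⟨i0⟩ := hcl.2.1
  have hr : 0 < r := lt_of_le_of_lt (Nat.zero_le _) i0.2
  have hg : ∀ D, lin g D ≤ lin (max g 1) D := fun D => Nat.mul_le_mul_right _ (le_max_left _ _)
  have h1 : CpT (g := max g 1) (r := r) A v (C3 N) (fun _ => K') S
      (⟨s.Q, fun i => (s.lf i).monoE hg⟩ : MSys S N (lin (max g 1)) (Fin r)) R :=
    { cl := hA.sub _ _ _ _ hcl.1 _ _ _ _ _ (sub_monoE hg s)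
      lit := hR
      ud := fun j => hcl.2.2 j
      dfc := fun b h0 hb => hdfc b h0 hb
      nh := fun D => hnh D }
  exact h1.stb (nsls N) hst (le_max_right _ _) hr (fun D => C3_nonneg N D) hA.im hA.sub
    (fun S s => hA.trn S _ _ s) (okA_gd hA hst hs)

/-- **NSLB** -/
theorem nslb (N : ℕ) : NSLB N := by
  intro A C hA hC hst v hs g r l La hl ε hε0 hε S x hx
  choose s R hs1 hR1 hP using hx
  obtain ⟨W1, hW1, h1⟩ := (Pool.Agent.Helper55.INV.and_inv_dg (hC.dg g r) v) S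
    (fun j k => (x j k : FMs ((S j).F k).Ω N (Fin r) × Setoid ((S j).F k).Ω).1)
    fun j => ⟨s j, Pool.Agent.Helper37.OKD.giv_ob (hs1 j), (hP j).1.1, (hP j).1.2.2⟩
  have hN : ∀ D j : ℕ, NHCt (s j) D (R j) (fun i : Fin r => i) (C3 N D) (max La (N / l)) (ε j) := fun D j =>
    nhct_of_lip hl (hε0 j) (hP j).2
  have hK' : 0 ≤ max La (N / l) := (div_nonneg (Nat.cast_nonneg N) hl.le).trans (le_max_right _ _)
  refine ⟨fun i j k => W1 i j k ∧ ((∀ ω ω' : ((S j).F k).Ω, ((S j).F k).μ ω ≠ 0 → ((S j).F k).μ ω' ≠ 0 →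
      ((S j).F k).Z ω ω' → R j k ω ω' → (s j).Q.v k ω = (s j).Q.v k ω') ∧
      (ob (s j) k = (x j k : FMs ((S j).F k).Ω N (Fin r) × Setoid ((S j).F k).Ω).1 ∧
        R j k = (x j k : FMs ((S j).F k).Ω N (Fin r) × Setoid ((S j).F k).Ω).2)) ∧
      trE s R (fun i : Fin r => i) (Nat.unpair i).1 (C3 N (Nat.unpair i).1) (max La (N / l)) ε (Nat.unpair i).2 j k,
    fun i j => ?_, fun J h => ?_⟩
  · exact (hW1 i j).and (((hP j).1.2.1.and ((Pool.Agent.Helper37.OKD.giv_ob (hs1 j)).and (hR1 j))).and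
      (trE_ev (hN _) _ j))
  · have ha := h.left
    have hb := h.right.left
    have hc := h.right.right
    obtain ⟨t, ht, htC, htv⟩ := h1 J ha
    have hb1 := hb.slow 0
    have hT : ∀ D : ℕ, NHC t D (fun k => (x (J k) k : FMs ((S (J k)).F k).Ω N (Fin r) × Setoid ((S (J k)).F k).Ω).2)
        (fun i => i) (C3 N D) (max La (N / l)) := by
      intro D
      have hD : Slo S (trE s R (fun i : Fin r => i) D (C3 N D) (max La (N / l)) ε) J :=
        Slo.prm (E := fun D i j k => trE s R (fun i : Fin r => i) D (C3 N D) (max La (N / l)) ε i j k) hc D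
      refine nhc_lim hε hD (C3_nonneg N D) hK' t _ ?_ ?_
      · filter_upwards [ht, hb1] with k a b
        exact a.trans b.2.1.symm
      · filter_upwards [hb1] with k b
        exact b.2.2.symm
    have hPt : Pt t (fun k => (x (J k) k : FMs ((S (J k)).F k).Ω N (Fin r) × Setoid ((S (J k)).F k).Ω).2) := by
      filter_upwards [ht, hb1] with k a b ω ω' h2 h3 h4 h5
      have e1 : t.Q.v k = (s (J k)).Q.v k := congrArg FMs.Q (a.trans b.2.1.symm)
      rw [e1]
      refine b.1 ω ω' h2 h3 h4 ?_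
      rw [b.2.2]
      exact h5
    refine ⟨t, _, Pool.Agent.Helper37.OKD.giv_of ht, Eventually.of_forall fun _ => rfl, ⟨htC, hPt, htv⟩, fun hd => ?_⟩
    exact stb_of_nhc hA hst hs ⟨hC.le _ _ _ _ htC, htv⟩ hPt hd hT

/-- the official NSL implies NSLB -/
theorem nslb_of_nsl {N : ℕ} (h : Pool.Agent.Helper29.MX.NSL N) : NSLB N := by
  intro A C hA hC hst v hs g r l La hl ε hε0 hε
  refine (h A C hA hC hst v hs g r ε hε0 hε).mono (fun j S x hx => ?_) fun S x hx => hx
  obtain ⟨s, R, h1, h2, h3, h4⟩ := hx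
  refine ⟨s, R, h1, h2, h3, fun T p A hA => ?_⟩
  have h5 := h4 T p A hA 0 le_rfl hl
  show (N : ℝ) - ε j ≤ volKO (s.im p A hA) R 0
  have h6 : (N : ℝ) - volKO (s.im p A hA) R 0 ≤ La * 0 + ε j := h5
  linarith

end

end Pool.Agent.Helper43.NSLB
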