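import Pool.Agent.Helper14.NHG.Clt
import Pool.Agent.Helper8.CPY.Cp0

/-! Transversality at the windows `c > 0` (`NHC` of helper14) of slow limits, with errors which tend to zero. -/

set_option autoImplicit false

namespace Pool.Agent.Helper43.NSLB

open Finset Filter Topology Matrix Pool.Agent.Helper69.RK Pool.Agent.Helper31.EC Pool.Agent.Helper31.EC.Sp
open Pool.Agent.Helper40.EL
open Pool.Agent.Helper84.MT Pool.Agent.Helper3.LF Pool.Agent.Helper59.LF Pool.Agent.Helper89.LX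
open Pool.Agent.Helper48.NS Pool.Agent.Helper49.MD Pool.Agent.Helper87.NSL Pool.Agent.Helper38.NSL
open Pool.Agent.Helper14.NHG
open Pool.Agent.Helper29.MX (Rsl AllE volKO KAd)

noncomputable section

variable {S : Sp} {M D : ℕ} {E : ℕ → ℕ} {ι κ : Type}

/-- the slowness conditions, error `ε j` -/
def trE {S : ℕ → Sp} (s : ∀ j, MSys (S j) M E ι) (R : ∀ j k, Setoid ((S j).F k).Ω) (V : κ → ι) (D : ℕ) (K K' : ℝ)
    (ε : ℕ → ℝ) (i j k : ℕ) : Prop :=
  ∀ q : ℚ × ℚ × ℚ × ℚ, Encodable.decode i = some q → (0 : ℝ) < q.1 → (q.1 : ℝ) ≤ 1 → (0 : ℝ) < q.2.1 →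
    K * q.2.1 + K' * q.1 + ε j < q.2.2.1 → (0 : ℝ) < q.2.2.2 →
    ¬ HasE ((S j).F k) M D ((s j).Q.v k) (fun o => optW (R j) (fun l => wn (s j) q.1 (V l)) o k) q.2.1 q.2.2.1 q.2.2.2

theorem trE_ev {S : ℕ → Sp} {s : ∀ j, MSys (S j) M E ι} {R : ∀ j k, Setoid ((S j).F k).Ω} {V : κ → ι} {K K' : ℝ}
    {ε : ℕ → ℝ} (h : ∀ j, NHCt (s j) D (R j) V K K' (ε j)) (i j : ℕ) : ∀ᶠ k in UF, trE s R V D K K' ε i j k := by
  cases hd : (Encodable.decode i : Option (ℚ × ℚ × ℚ × ℚ)) with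
  | none =>
    refine Eventually.of_forall fun k q hq => ?_
    rw [hd] at hq
    exact absurd hq (by simp)
  | some q =>
    by_cases h1 : (0 : ℝ) < q.1 ∧ (q.1 : ℝ) ≤ 1 ∧ (0 : ℝ) < q.2.1 ∧ K * q.2.1 + K' * q.1 + ε j < q.2.2.1 ∧
        (0 : ℝ) < q.2.2.2
    · filter_upwards [h j q.1 q.2.1 q.2.2.1 q.2.2.2 h1.1 h1.2.1 h1.2.2.1 h1.2.2.2.1 h1.2.2.2.2] with k hk q' hq' _ _ _ _ _
      rw [hd] at hq'
      obtain rfl := Option.some_injective _ hq'
      exact hk
    · refine Eventually.of_forall fun k q' hq' h2 h3 h4 h5 h6 => ?_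
      rw [hd] at hq'
      obtain rfl := Option.some_injective _ hq'
      exact absurd ⟨h2, h3, h4, h5, h6⟩ h1

/-- SLOW LIMITS WITH ERRORS -/
theorem nhc_lim [Finite κ] {S : ℕ → Sp} {s : ∀ j, MSys (S j) M E ι} {R : ∀ j k, Setoid ((S j).F k).Ω} {V : κ → ι}
    {K K' : ℝ} {ε : ℕ → ℝ} (hε : Tendsto ε atTop (𝓝 0)) {J : ℕ → ℕ} (h : Slo S (trE s R V D K K' ε) J) (hK : 0 ≤ K)
    (hK' : 0 ≤ K') (s' : MSys (dsp S J h.lim) M E ι) (R' : ∀ k, Setoid ((dsp S J h.lim).F k).Ω)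
    (hs : ∀ᶠ k in UF, ob s' k = ob (s (J k)) k) (hR : ∀ᶠ k in UF, R' k = R (J k) k) :
    NHC s' D R' V K K' := by
  classical
  have _ : Fintype κ := Fintype.ofFinite κ
  intro c e γ p hc hc1 he hγ hp
  have hB : (0 : ℝ) < (Fintype.card (Fin (E 0) → Bool) : ℝ) ^ Fintype.card (Option κ) := by
    have : 0 < Fintype.card (Fin (E 0) → Bool) := Fintype.card_pos
    positivity
  set B := (Fintype.card (Fin (E 0) → Bool) : ℝ) ^ Fintype.card (Option κ) with hBd
  obtain ⟨q3, h1, h2⟩ := exists_rat_btwn hγ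
  obtain ⟨q4, h5, h6⟩ := exists_rat_btwn (div_pos hp hB)
  have h7 : 0 < (q3 : ℝ) - K * e - K' * c := by linarith
  obtain ⟨q2, h3, h4⟩ : ∃ q2 : ℚ, e < q2 ∧ K * q2 ≤ K * e + ((q3 : ℝ) - K * e - K' * c) / 4 := by
    obtain ⟨q2, a, b⟩ := exists_rat_btwn (show e < e + ((q3 : ℝ) - K * e - K' * c) / (4 * (K + 1)) by
      have : 0 < ((q3 : ℝ) - K * e - K' * c) / (4 * (K + 1)) := div_pos h7 (by linarith)
      linarith)
    refine ⟨q2, a, ?_⟩
    have h8 := mul_le_mul_of_nonneg_left b.le hK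
    have h9 : K * (((q3 : ℝ) - K * e - K' * c) / (4 * (K + 1))) ≤ ((q3 : ℝ) - K * e - K' * c) / 4 := by
      rw [mul_div_assoc', div_le_div_iff₀ (by linarith) (by norm_num)]
      nlinarith
    linarith
  obtain ⟨q1, h8, h9, h10⟩ : ∃ q1 : ℚ, c ≤ q1 ∧ (q1 : ℝ) ≤ 1 ∧ K' * q1 ≤ K' * c + ((q3 : ℝ) - K * e - K' * c) / 4 := by
    rcases hc1.eq_or_lt with h11 | h11
    · refine ⟨1, by rw [h11]; push_cast; rfl, by push_cast; exact le_rfl, ?_⟩
      push_cast
      rw [h11]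
      rw [h11] at h7
      linarith
    · have h12 : 0 < ((q3 : ℝ) - K * e - K' * c) / (4 * (K' + 1)) := div_pos h7 (by linarith)
      obtain ⟨q1, a, b⟩ := exists_rat_btwn (show c < min 1 (c + ((q3 : ℝ) - K * e - K' * c) / (4 * (K' + 1))) from
        lt_min h11 (by linarith))
      refine ⟨q1, a.le, b.le.trans (min_le_left _ _), ?_⟩
      have h13 := mul_le_mul_of_nonneg_left (b.le.trans (min_le_right _ _)) hK'
      have h9 : K' * (((q3 : ℝ) - K * e - K' * c) / (4 * (K' + 1))) ≤ ((q3 : ℝ) - K * e - K' * c) / 4 := by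
        rw [mul_div_assoc', div_le_div_iff₀ (by linarith) (by norm_num)]
        nlinarith
      linarith
  have h15 : ∀ᶠ k in UF, ε (J k) < ((q3 : ℝ) - K * e - K' * c) / 4 :=
    (hε.comp h.tend).eventually (gt_mem_nhds (div_pos h7 (by norm_num)))
  filter_upwards [h.slow (Encodable.encode ((q1, q2, q3, q4) : ℚ × ℚ × ℚ × ℚ)), hs, hR, h15] with k hk a b h16 hE
  have h14 := hasE_win s' R' V h8 k hE
  refine hk (q1, q2, q3, q4) (Encodable.encodek _) (hc.trans_le h8) h9 (he.trans h3) ?_ h5 ?_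
  · show K * (q2 : ℝ) + K' * q1 + ε (J k) < q3
    linarith
  · have e1 : (fun o => optW (R (J k)) (fun l => wn (s (J k)) q1 (V l)) o k) =
        fun i => optW R' (fun j => wn s' q1 (V j)) i k := by
      funext i
      cases i with
      | none => exact b.symm
      | some j =>
        show wn (s (J k)) q1 (V j) k = wn s' q1 (V j) k
        rw [wn_ob, wn_ob, a]
        rfl
    have e2 : (s (J k)).Q.v k = s'.Q.v k := (congrArg FMs.Q a).symm
    show HasE ((S (J k)).F k) M D ((s (J k)).Q.v k) (fun o => optW (R (J k)) (fun l => wn (s (J k)) q1 (V l)) o k)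
      q2 q3 q4
    rw [e1, e2]
    exact h14.mono h3.le h2.le h6.le

/-- members: the volumes of K-forms at the windows `c < l` are at least `M - La c - ε` -/
theorem nhct_of_lip [Finite ι] {s : MSys S M E ι} {R : Rsl S} {l La ε : ℝ} (hl : 0 < l) (hε : 0 ≤ ε)
    (h : AllE (fun _ t R' => ∀ c : ℝ, 0 ≤ c → c < l → (M : ℝ) - volKO t R' c ≤ La * c + ε) S s R) :
    NHCt s D R (fun i : ι => i) (C3 M D) (max La (M / l)) ε := by
  refine nhct_of_stab' s R _ _ fun c hc hc1 A hA x hx => ?_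
  have h1 : volKO (s.im (Pj.id S) A hA) R c ≤ vol (s.im (Pj.id S) A hA).Q D x :=
    Pool.Agent.Helper29.MX.volKO_le_of hx
  rcases lt_or_ge c l with hcl | hcl
  · have h2 := h S (Pj.id S) A hA c hc.le hcl
    have h3 : La * c ≤ max La (M / l) * c := mul_le_mul_of_nonneg_right (le_max_left _ _) hc.le
    linarith
  · have h2 := Pool.Agent.Helper29.MX.volKO_nonneg (s.im (Pj.id S) A hA) R c
    have h3 : (M : ℝ) ≤ max La (M / l) * c := by
      have h4 : (M : ℝ) / l * l = M := div_mul_cancel₀ _ hl.ne'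
      have h5 : (M : ℝ) / l * l ≤ max La (M / l) * c :=
        mul_le_mul (le_max_right _ _) hcl hl.le ((div_nonneg (Nat.cast_nonneg M) hl.le).trans (le_max_right _ _))
      linarith
    linarith

end

end Pool.Agent.Helper43.NSLB
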